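import Mathlib

set_option autoImplicit false

namespace Pool.Agent.R294.OP3

open MeasureTheory Set Filter Topology

theorem psi_exists {k : ℝ → ℝ} (hk : Continuous k) {c : ℝ} (hc : 0 < c) (hck : ∀ s, c ≤ k s)
    {m : ℝ} (hm : 0 < m) (a : ℝ) :
    StrictMono (fun t => (∫ s in a..t, k s) / m) ∧
    (∀ t, HasDerivAt (fun t => (∫ s in a..t, k s) / m) (k t / m) t) ∧
    ∃ ψ : ℝ → ℝ, (∀ u, (∫ s in a..(ψ u), k s) / m = u) ∧
      (∀ t, ψ ((∫ s in a..t, k s) / m) = t) ∧
      (∀ u, HasDerivAt ψ (m / k (ψ u)) u) ∧ Continuous ψ := by
  set F : ℝ → ℝ := fun t => (∫ s in a..t, k s) / m with hF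
  have hkpos : ∀ s, 0 < k s := fun s => hc.trans_le (hck s)
  have hd : ∀ t, HasDerivAt F (k t / m) t := by
    intro t
    have h1 : HasDerivAt (fun t => ∫ s in a..t, k s) (k t) t :=
      intervalIntegral.integral_hasDerivAt_right (hk.intervalIntegrable _ _)
        (hk.stronglyMeasurableAtFilter _ _) hk.continuousAt
    exact h1.div_const m
  have hmono : StrictMono F := by
    apply strictMono_of_deriv_pos
    intro t
    rw [(hd t).deriv]
    exact div_pos (hkpos t) hm
  have hcont : Continuous F := continuous_iff_continuousAt.2 fun t => (hd t).continuousAt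
  have hG : Monotone (fun t => F t - (c / m) * t) := by
    have hdG : ∀ t, HasDerivAt (fun t => F t - (c / m) * t) (k t / m - c / m) t := by
      intro t
      have := (hd t).sub ((hasDerivAt_id t).const_mul (c / m))
      exact this.congr_deriv (by ring)
    apply monotone_of_deriv_nonneg
    · exact fun t => (hdG t).differentiableAt
    · intro t
      rw [(hdG t).deriv]
      have := div_le_div_of_nonneg_right (hck t) hm.le
      linarith
  have hcm : 0 < c / m := div_pos hc hm
  have htop : Tendsto F atTop atTop := by
    have h1 : Tendsto (fun t : ℝ => F 0 + (c / m) * t) atTop atTop :=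
      tendsto_atTop_add_const_left _ _ (tendsto_id.const_mul_atTop hcm)
    refine tendsto_atTop_mono' _ ?_ h1
    filter_upwards [eventually_ge_atTop (0 : ℝ)] with t ht
    have := hG ht
    simp only [mul_zero, sub_zero] at this
    linarith
  have hbot : Tendsto F atBot atBot := by
    have h1 : Tendsto (fun t : ℝ => F 0 + (c / m) * t) atBot atBot :=
      tendsto_atBot_add_const_left _ _ (tendsto_id.const_mul_atBot hcm)
    refine tendsto_atBot_mono' _ ?_ h1
    filter_upwards [eventually_le_atBot (0 : ℝ)] with t ht
    have := hG ht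
    simp only [mul_zero, sub_zero] at this
    linarith
  have hsurj : Function.Surjective F := hcont.surjective htop hbot
  let e := StrictMono.orderIsoOfSurjective F hmono hsurj
  have he1 : ∀ u, F (e.symm u) = u := fun u => e.apply_symm_apply u
  have he2 : ∀ t, e.symm (F t) = t := fun t => e.symm_apply_apply t
  refine ⟨hmono, hd, e.symm, he1, he2, ?_, e.symm.continuous⟩
  intro u
  have := HasDerivAt.of_local_left_inverse (f := F) (g := e.symm) (a := u)
    e.symm.continuous.continuousAt (hd (e.symm u)) (div_pos (hkpos _) hm).ne'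
    (Eventually.of_forall he1)
  rwa [inv_div] at this

end Pool.Agent.R294.OP3
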