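import Mathlib

set_option autoImplicit false

namespace Pool.Agent.R294.OP3

open MeasureTheory Set Filter Topology

/-- derivative of a coordinatewise map -/
noncomputable def dg {n : ℕ} (c : Fin n → ℝ) : (Fin n → ℝ) →L[ℝ] (Fin n → ℝ) :=
  ContinuousLinearMap.pi fun i => c i • ContinuousLinearMap.proj i

theorem det_dg {n : ℕ} (c : Fin n → ℝ) : (dg c).det = ∏ i, c i := by
  have h : ((dg c : (Fin n → ℝ) →L[ℝ] (Fin n → ℝ)) : (Fin n → ℝ) →ₗ[ℝ] (Fin n → ℝ)) =
      Matrix.toLin' (Matrix.diagonal c) := by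
    ext i j
    by_cases hij : j = i <;> simp [dg, Matrix.mulVec_single,
      hij]
  unfold ContinuousLinearMap.det
  rw [h, LinearMap.det_toLin', Matrix.det_diagonal]

theorem hasFDerivAt_coord {n : ℕ} {F F' : ℝ → ℝ} {x : Fin n → ℝ}
    (h : ∀ i, HasDerivAt F (F' (x i)) (x i)) :
    HasFDerivAt (fun (y : Fin n → ℝ) (i : Fin n) => F (y i)) (dg fun i => F' (x i)) x := by
  apply hasFDerivAt_pi.2
  intro i
  have h1 : HasFDerivAt (fun y : Fin n → ℝ => y i)
      (ContinuousLinearMap.proj (R := ℝ) (φ := fun _ : Fin n => ℝ) i) x :=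
    (ContinuousLinearMap.proj (R := ℝ) (φ := fun _ : Fin n => ℝ) i).hasFDerivAt
  have h2 := (h i).hasFDerivAt.comp x h1
  refine h2.congr_fderiv ?_
  ext v
  simp [mul_comm]

end Pool.Agent.R294.OP3
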