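import Pool.Agent.R294.OP3.A
import Pool.Agent.R294.OP3.B
import Pool.Agent.R972.OP.Stm

set_option autoImplicit false

namespace Pool.Agent.R294.OP3

open MeasureTheory Set Filter Topology
open Pool.Agent.R972.OP

/-- the order polytope on `[-T, T]` -/
def KK {n : ℕ} (R : Fin n → Fin n → Prop) (T : ℝ) : Set (Fin n → ℝ) :=
  {x | (∀ i, -T ≤ x i ∧ x i ≤ T) ∧ ∀ i j, R i j → x i ≤ x j}

theorem KK_closed {n : ℕ} (R : Fin n → Fin n → Prop) (T : ℝ) : IsClosed (KK R T) := by
  have : KK R T = (⋂ i, {x : Fin n → ℝ | -T ≤ x i ∧ x i ≤ T}) ∩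
      ⋂ i, ⋂ j, ⋂ (_ : R i j), {x : Fin n → ℝ | x i ≤ x j} := by
    ext x; simp [KK]
  rw [this]
  refine IsClosed.inter (isClosed_iInter fun i => ?_) (isClosed_iInter fun i =>
    isClosed_iInter fun j => isClosed_iInter fun _ => ?_)
  · exact (isClosed_le continuous_const (continuous_apply i)).inter
      (isClosed_le (continuous_apply i) continuous_const)
  · exact isClosed_le (continuous_apply i) (continuous_apply j)

theorem OPp_compact {n : ℕ} (R : Fin n → Fin n → Prop) : IsCompact (OPp R) := by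
  have hc : IsClosed (OPp R) := by
    have : OPp R = (⋂ i, {x : Fin n → ℝ | 0 ≤ x i ∧ x i ≤ 1}) ∩
        ⋂ i, ⋂ j, ⋂ (_ : R i j), {x : Fin n → ℝ | x i ≤ x j} := by
      ext x; simp [OPp]
    rw [this]
    refine IsClosed.inter (isClosed_iInter fun i => ?_) (isClosed_iInter fun i =>
      isClosed_iInter fun j => isClosed_iInter fun _ => ?_)
    · exact (isClosed_le continuous_const (continuous_apply i)).inter
        (isClosed_le (continuous_apply i) continuous_const)
    · exact isClosed_le (continuous_apply i) (continuous_apply j)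
  refine IsCompact.of_isClosed_subset (isCompact_univ_pi (fun _ : Fin n => isCompact_Icc (a := (0:ℝ)) (b := 1))) hc ?_
  intro x hx i _
  exact hx.1 i

/-- change of variables -/
theorem cov {n : ℕ} (R : Fin n → Fin n → Prop) (h F ψ : ℝ → ℝ) (T m : ℝ) (hm : 0 < m)
    (hT : 0 < T) (hpos : ∀ s, 0 < h s) (hmono : StrictMono F) (hF0 : F (-T) = 0) (hF1 : F T = 1)
    (hd : ∀ t, -T ≤ t → t ≤ T → HasDerivAt F (h t / m) t)
    (h1 : ∀ u, F (ψ u) = u) (h2 : ∀ t, ψ (F t) = t) (G : (Fin n → ℝ) → ℝ) :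
    ∫ u in OPp R, G (fun i => ψ (u i)) = (m ^ n)⁻¹ * ∫ x in KK R T, G x * ∏ i, h (x i) := by
  set Φ : (Fin n → ℝ) → (Fin n → ℝ) := fun x i => F (x i) with hΦ
  have himg : Φ '' (KK R T) = OPp R := by
    ext u
    constructor
    · rintro ⟨x, hx, rfl⟩
      refine ⟨fun i => ⟨?_, ?_⟩, fun i j hij => hmono.monotone (hx.2 i j hij)⟩
      · rw [← hF0]; exact hmono.monotone (hx.1 i).1
      · rw [← hF1]; exact hmono.monotone (hx.1 i).2
    · intro hu
      refine ⟨fun i => ψ (u i), ⟨fun i => ⟨?_, ?_⟩, fun i j hij => ?_⟩, ?_⟩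
      · rw [← hmono.le_iff_le, h1, hF0]; exact (hu.1 i).1
      · rw [← hmono.le_iff_le, h1, hF1]; exact (hu.1 i).2
      · show ψ (u i) ≤ ψ (u j)
        rw [← hmono.le_iff_le, h1, h1]; exact hu.2 i j hij
      · funext i; exact h1 (u i)
  have hinj : InjOn Φ (KK R T) := by
    intro x _ y _ hxy
    funext i
    exact hmono.injective (congrFun hxy i)
  have hder : ∀ x ∈ KK R T, HasFDerivWithinAt Φ (dg fun i => h (x i) / m) (KK R T) x := by
    intro x hx
    exact (hasFDerivAt_coord (F := F) (F' := fun t => h t / m)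
      fun i => hd (x i) (hx.1 i).1 (hx.1 i).2).hasFDerivWithinAt
  rw [← himg, integral_image_eq_integral_abs_det_fderiv_smul volume
    (KK_closed R T).measurableSet hder hinj, ← integral_const_mul]
  refine setIntegral_congr_fun (KK_closed R T).measurableSet ?_
  intro x hx
  have e1 : (fun i => ψ (Φ x i)) = x := by funext i; exact h2 (x i)
  have e2 : |(dg fun i => h (x i) / m).det| = (m ^ n)⁻¹ * ∏ i, h (x i) := by
    rw [det_dg, abs_of_nonneg (Finset.prod_nonneg fun i _ => (div_pos (hpos _) hm).le),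
      Finset.prod_div_distrib, Finset.prod_const, Finset.card_univ, Fintype.card_fin]
    rw [div_eq_mul_inv, mul_comm]
  simp only [e1, e2, smul_eq_mul]
  ring

end Pool.Agent.R294.OP3
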