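import Pool.Agent.R294.OP3.C
import Pool.Agent.R972.OP.Stm4
import Pool.Agent.R441.OPTR

set_option autoImplicit false

namespace Pool.Agent.R294.OP3

open MeasureTheory Set Filter Topology
open scoped ENNReal InnerProductSpace
open Pool.Agent.R972.OP
open Pool.Agent.W695.KH (Eu)
open Pool.Agent.Y506.RG (EW VW)

theorem integral_Eu {n : ℕ} (H : Eu (Fin n) → ℝ) :
    ∫ x, H x = ∫ x : Fin n → ℝ, H (WithLp.toLp 2 x) := by
  have hmp := PiLp.volume_preserving_toLp (Fin n)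
  have hme : MeasurableEmbedding (fun x : Fin n → ℝ => (WithLp.toLp 2 x : Eu (Fin n))) :=
    (MeasurableEquiv.toLp 2 (Fin n → ℝ)).measurableEmbedding
  exact (hmp.integral_comp hme H).symm

theorem integral_wR {n : ℕ} (R : Fin n → Fin n → Prop) (k : ℝ → ℝ) (T : ℝ) (v : Eu (Fin n) → ℝ) :
    ∫ x, v x * wR R (trc T k) x =
      ∫ x in KK R T, v (WithLp.toLp 2 x) * ∏ i, k (x i) := by
  classical
  rw [integral_Eu, ← integral_indicator (KK_closed R T).measurableSet]
  congr 1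
  funext x
  by_cases hx : x ∈ KK R T
  · rw [indicator_of_mem hx]
    have h1 : (WithLp.toLp 2 x : Eu (Fin n)) ∈ Cn R := hx.2
    have h2 : ∀ i, trc T k (x i) = k (x i) := fun i => by
      unfold trc
      rw [indicator_of_mem]
      exact hx.1 i
    unfold wR
    rw [indicator_of_mem h1]
    congr 1
    exact Finset.prod_congr rfl fun i _ => h2 i
  · rw [indicator_of_notMem hx]
    unfold wR
    by_cases h1 : (WithLp.toLp 2 x : Eu (Fin n)) ∈ Cn R
    · rw [indicator_of_mem h1]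
      have : ∃ i, ¬ (-T ≤ x i ∧ x i ≤ T) := by
        by_contra hcon
        push Not at hcon
        exact hx ⟨fun i => ⟨(hcon i).1, (hcon i).2⟩, h1⟩
      obtain ⟨i, hi⟩ := this
      rw [Finset.prod_eq_zero (Finset.mem_univ i), mul_zero]
      unfold trc
      rw [indicator_of_notMem]
      exact hi
    · rw [indicator_of_notMem h1, mul_zero]

theorem sum_sq_le {n : ℕ} (L : Eu (Fin n) →L[ℝ] ℝ) :
    ∑ a, L (EuclideanSpace.single a 1) ^ 2 ≤ ‖L‖ ^ 2 := by
  set v : Eu (Fin n) := ∑ a, L (EuclideanSpace.single a 1) • EuclideanSpace.single a (1 : ℝ) with hv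
  have h1 : L v = ∑ a, L (EuclideanSpace.single a 1) ^ 2 := by
    rw [hv, map_sum]
    refine Finset.sum_congr rfl fun a _ => ?_
    rw [map_smul, smul_eq_mul, sq]
  have h2 : ‖v‖ ^ 2 = ∑ a, L (EuclideanSpace.single a 1) ^ 2 := by
    rw [EuclideanSpace.norm_sq_eq]
    refine Finset.sum_congr rfl fun a _ => ?_
    have : v a = L (EuclideanSpace.single a 1) := by
      rw [hv]
      simp [Finset.sum_apply, Pi.single_apply]
    rw [this, Real.norm_eq_abs, sq_abs]
  have h3 : L v ≤ ‖L‖ * ‖v‖ := (le_abs_self _).trans (by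
    rw [← Real.norm_eq_abs]; exact L.le_opNorm v)
  rw [h1, ← h2] at h3
  rw [← h2]
  rcases (norm_nonneg v).eq_or_lt with h0 | h0
  · rw [← h0, zero_pow two_ne_zero]; positivity
  · have : ‖v‖ ≤ ‖L‖ := by
      rw [sq] at h3
      exact le_of_mul_le_mul_right h3 h0
    exact pow_le_pow_left₀ (norm_nonneg v) this 2


theorem f_facts {n : ℕ} {g : Eu (Fin n) → ℝ} (hg : ContDiff ℝ 1 g) {ψ ψ' : ℝ → ℝ}
    (hψ : ∀ u, HasDerivAt ψ (ψ' u) u) (hψ' : Continuous ψ') :
    ContDiff ℝ 1 (fun u : Fin n → ℝ => g (WithLp.toLp 2 fun i => ψ (u i))) ∧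
    ∀ (a : Fin n) (u : Fin n → ℝ),
      pd (fun u : Fin n → ℝ => g (WithLp.toLp 2 fun i => ψ (u i))) a u =
      ψ' (u a) * fderiv ℝ g (WithLp.toLp 2 fun i => ψ (u i)) (EuclideanSpace.single a 1) := by
  set e : (Fin n → ℝ) ≃L[ℝ] Eu (Fin n) := (EuclideanSpace.equiv (Fin n) ℝ).symm with he
  have he1 : ∀ x : Fin n → ℝ, e x = WithLp.toLp 2 x := fun x => rfl
  have hψC : ContDiff ℝ 1 ψ := by
    rw [contDiff_one_iff_deriv]
    refine ⟨fun u => (hψ u).differentiableAt, ?_⟩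
    have : deriv ψ = ψ' := by funext u; exact (hψ u).deriv
    rw [this]; exact hψ'
  have hΨ : ContDiff ℝ 1 (fun u : Fin n → ℝ => fun i => ψ (u i)) :=
    contDiff_pi.2 fun i => hψC.comp (contDiff_apply ℝ ℝ i)
  refine ⟨hg.comp (e.contDiff.comp hΨ), ?_⟩
  intro a u
  have h1 : HasFDerivAt (fun u : Fin n → ℝ => fun i => ψ (u i)) (dg fun i => ψ' (u i)) u :=
    hasFDerivAt_coord (F := ψ) (F' := ψ') fun i => hψ (u i)
  have h2 : HasFDerivAt (fun u : Fin n → ℝ => g (e fun i => ψ (u i)))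
      ((fderiv ℝ g (e fun i => ψ (u i))).comp
        ((e : (Fin n → ℝ) →L[ℝ] Eu (Fin n)).comp (dg fun i => ψ' (u i)))) u :=
    ((hg.differentiable one_ne_zero) _).hasFDerivAt.comp u (e.hasFDerivAt.comp u h1)
  unfold pd
  have h3 : fderiv ℝ (fun u : Fin n → ℝ => g (WithLp.toLp 2 fun i => ψ (u i))) u = _ := h2.fderiv
  rw [h3]
  have h4 : (e (dg (fun i => ψ' (u i)) (Pi.single a 1))) =
      ψ' (u a) • (EuclideanSpace.single a (1 : ℝ) : Eu (Fin n)) := by
    rw [he1]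
    ext j
    by_cases hj : j = a
    · subst hj; simp [dg]
    · simp [dg, hj]
  show fderiv ℝ g (e fun i => ψ (u i)) (e (dg (fun i => ψ' (u i)) (Pi.single a 1))) = _
  rw [h4, map_smul, smul_eq_mul, he1]

end Pool.Agent.R294.OP3
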