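import Pool.Agent.R294.OP3.D

/-!
# OP3-TRU: change of variables, truncated samples (project OP3)
-/

set_option autoImplicit false

namespace Pool.Agent.R294.OP3

open MeasureTheory Set Filter Topology
open scoped ENNReal InnerProductSpace
open Pool.Agent.R972.OP
open Pool.Agent.W695.KH (Eu)
open Pool.Agent.Y506.RG (EW VW)

theorem tru_core {n : ℕ} (hPOH : S_POH) (R : Fin n → Fin n → Prop) (k : ℝ → ℝ) (T B : ℝ)
    (hpos : ∀ s, 0 < k s) (hcont : Continuous k) (hT : 0 < T) (hB : 0 ≤ B)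
    (hb : ∀ t, |t| ≤ T → (∫ s in (-T)..t, k s) * (∫ s in t..T, k s) ≤
      B * k t * ∫ s in (-T)..T, k s)
    (g : Eu (Fin n) → ℝ) (hg : ContDiff ℝ 1 g) :
    let A : (Eu (Fin n) → ℝ) → ℝ := fun v =>
      ∫ x in KK R T, v (WithLp.toLp 2 x) * ∏ i, k (x i)
    A (fun _ => 1) * A (fun x => g x ^ 2) - A g ^ 2 ≤
      4 * B ^ 2 * (A (fun _ => 1) * A fun x => ‖fderiv ℝ g x‖ ^ 2) := by
  intro A
  set kt : ℝ → ℝ := fun s => k (max (-T) (min T s)) with hkt
  have hktc : Continuous kt := hcont.comp (continuous_const.max (continuous_const.min continuous_id))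
  have hkte : ∀ s, -T ≤ s → s ≤ T → kt s = k s := by
    intro s h1 h2
    simp only [hkt]
    rw [min_eq_right h2, max_eq_right h1]
  obtain ⟨s0, hs0, hmin⟩ := (isCompact_Icc (a := -T) (b := T)).exists_isMinOn
    (nonempty_Icc.2 (by linarith)) hcont.continuousOn
  have hlow : ∀ s, k s0 ≤ kt s := by
    intro s
    apply hmin
    constructor
    · exact le_max_left _ _
    · exact max_le (by linarith) (min_le_left _ _)
  set m : ℝ := ∫ s in (-T)..T, k s with hm
  have hm0 : 0 < m := by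
    apply intervalIntegral.intervalIntegral_pos_of_pos (hcont.intervalIntegrable _ _) hpos
    linarith
  obtain ⟨hmono, hd, ψ, h1, h2, hψd, hψc⟩ := psi_exists hktc (hpos s0) hlow hm0 (-T)
  set F : ℝ → ℝ := fun t => (∫ s in (-T)..t, kt s) / m with hF
  have hFk : ∀ t, -T ≤ t → t ≤ T → F t = (∫ s in (-T)..t, k s) / m := by
    intro t ht1 ht2
    simp only [hF]
    congr 1
    apply intervalIntegral.integral_congr
    intro s hs
    rw [uIcc_of_le ht1] at hs
    exact hkte s hs.1 (hs.2.trans ht2)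
  have hF0 : F (-T) = 0 := by simp [hF]
  have hF1 : F T = 1 := by
    rw [hFk T (by linarith) le_rfl, ← hm, div_self hm0.ne']
  have hcov := fun G => cov R k F ψ T m hm0 hT hpos hmono hF0 hF1
    (fun t ht1 ht2 => by rw [← hkte t ht1 ht2]; exact hd t) h1 h2 G
  -- the functional on the order polytope
  have hI : ∀ v : Eu (Fin n) → ℝ,
      ∫ u in OPp R, v (WithLp.toLp 2 fun i => ψ (u i)) = (m ^ n)⁻¹ * A v := by
    intro v
    exact hcov (fun x => v (WithLp.toLp 2 x))
  have hmn : 0 < m ^ n := pow_pos hm0 n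
  set ψ' : ℝ → ℝ := fun u => m / kt (ψ u) with hψ'
  have hψ'c : Continuous ψ' :=
    continuous_const.div (hktc.comp hψc) fun u => ((hpos s0).trans_le (hlow _)).ne'
  obtain ⟨hfC, hfpd⟩ := f_facts hg hψd hψ'c
  set f : (Fin n → ℝ) → ℝ := fun u => g (WithLp.toLp 2 fun i => ψ (u i)) with hf
  -- remove the diagonal
  have hOP : OPp (fun a b => R a b ∧ a ≠ b) = OPp R := by
    ext x
    constructor
    · rintro ⟨hx1, hx2⟩
      refine ⟨hx1, fun i j hij => ?_⟩
      by_cases h : i = j
      · rw [h]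
      · exact hx2 i j ⟨hij, h⟩
    · rintro ⟨hx1, hx2⟩
      exact ⟨hx1, fun i j hij => hx2 i j hij.1⟩
  have hP := hPOH n (fun a b => R a b ∧ a ≠ b) (fun a ha => ha.2 rfl) f hfC
  rw [hOP] at hP
  have hvol : (volume (OPp R)).toReal = (m ^ n)⁻¹ * A (fun _ => 1) := by
    rw [← hI (fun _ => 1)]
    simp [Measure.real]
  have hf2 : ∫ x in OPp R, f x ^ 2 = (m ^ n)⁻¹ * A (fun x => g x ^ 2) :=
    hI (fun x => g x ^ 2)
  have hf1 : ∫ x in OPp R, f x = (m ^ n)⁻¹ * A g := hI g
  have hgrad : ∫ x in OPp R, GH f x ≤ 4 * B ^ 2 * ((m ^ n)⁻¹ * A fun x => ‖fderiv ℝ g x‖ ^ 2) := by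
    rw [← hI (fun x => ‖fderiv ℝ g x‖ ^ 2), ← integral_const_mul]
    have hGHc : Continuous (GH f) := by
      unfold GH
      refine continuous_finset_sum _ fun a _ => ?_
      have hpdc : Continuous (pd f a) := by
        unfold pd
        exact (hfC.continuous_fderiv one_ne_zero).clm_apply continuous_const
      exact ((continuous_const.mul ((continuous_apply a).pow 2)).mul
        ((continuous_const.sub (continuous_apply a)).pow 2)).mul (hpdc.pow 2)
    have hΨc : Continuous (fun u : Fin n → ℝ => (WithLp.toLp 2 fun i => ψ (u i) : Eu (Fin n))) := by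
      have : Continuous (fun u : Fin n → ℝ => fun i => ψ (u i)) :=
        continuous_pi fun i => hψc.comp (continuous_apply i)
      exact (EuclideanSpace.equiv (Fin n) ℝ).symm.continuous.comp this
    have hrc : Continuous (fun u : Fin n → ℝ =>
        4 * B ^ 2 * ‖fderiv ℝ g (WithLp.toLp 2 fun i => ψ (u i))‖ ^ 2) :=
      continuous_const.mul ((((hg.continuous_fderiv one_ne_zero).comp hΨc).norm).pow 2)
    have hmeas : MeasurableSet (OPp R) := (OPp_compact R).isClosed.measurableSet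
    refine setIntegral_mono_on (hGHc.continuousOn.integrableOn_compact (OPp_compact R))
      (hrc.continuousOn.integrableOn_compact (OPp_compact R)) hmeas ?_
    intro u hu
    set L := fderiv ℝ g (WithLp.toLp 2 fun i => ψ (u i)) with hL
    have hterm : ∀ a, 4 * u a ^ 2 * (1 - u a) ^ 2 * pd f a u ^ 2 ≤
        4 * B ^ 2 * L (EuclideanSpace.single a 1) ^ 2 := by
      intro a
      rw [hfpd a u]
      have hu0 := (hu.1 a).1
      have hu1 := (hu.1 a).2
      have ht1 : -T ≤ ψ (u a) := by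
        rw [← hmono.le_iff_le]
        show F (-T) ≤ F (ψ (u a))
        rw [hF0]
        show 0 ≤ (∫ s in (-T)..(ψ (u a)), kt s) / m
        rw [h1]; exact hu0
      have ht2 : ψ (u a) ≤ T := by
        rw [← hmono.le_iff_le]
        show F (ψ (u a)) ≤ F T
        rw [hF1]
        show (∫ s in (-T)..(ψ (u a)), kt s) / m ≤ 1
        rw [h1]; exact hu1
      set t := ψ (u a) with ht
      have hut : u a = (∫ s in (-T)..t, k s) / m := by
        rw [← hFk t ht1 ht2]
        exact (h1 (u a)).symm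
      have hadd : (∫ s in (-T)..t, k s) + (∫ s in t..T, k s) = m :=
        intervalIntegral.integral_add_adjacent_intervals (hcont.intervalIntegrable _ _)
          (hcont.intervalIntegrable _ _)
      have hut' : 1 - u a = (∫ s in t..T, k s) / m := by
        rw [hut, eq_div_iff hm0.ne', sub_mul, one_mul, div_mul_cancel₀ _ hm0.ne']
        linarith
      have hkey : u a * (1 - u a) * ψ' (u a) ≤ B := by
        have e1 : ψ' (u a) = m / k t := by
          simp only [hψ']
          rw [← ht, hkte t ht1 ht2]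
        have e2 : u a * (1 - u a) * ψ' (u a) =
            ((∫ s in (-T)..t, k s) * (∫ s in t..T, k s)) / (k t * m) := by
          rw [hut', e1]
          nth_rewrite 1 [hut]
          have := (hpos t).ne'
          have := hm0.ne'
          field_simp
        rw [e2, div_le_iff₀ (mul_pos (hpos t) hm0)]
        have := hb t (abs_le.2 ⟨ht1, ht2⟩)
        linarith
      have hkey0 : 0 ≤ u a * (1 - u a) * ψ' (u a) := by
        have : 0 < ψ' (u a) := div_pos hm0 ((hpos s0).trans_le (hlow _))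
        have h3 : 0 ≤ 1 - u a := by linarith
        positivity
      have hsq : (u a * (1 - u a) * ψ' (u a)) ^ 2 ≤ B ^ 2 := pow_le_pow_left₀ hkey0 hkey 2
      calc 4 * u a ^ 2 * (1 - u a) ^ 2 * (ψ' (u a) * L (EuclideanSpace.single a 1)) ^ 2
          = 4 * (u a * (1 - u a) * ψ' (u a)) ^ 2 * L (EuclideanSpace.single a 1) ^ 2 := by ring
        _ ≤ 4 * B ^ 2 * L (EuclideanSpace.single a 1) ^ 2 := by
          apply mul_le_mul_of_nonneg_right _ (sq_nonneg _)
          linarith
    calc GH f u = ∑ a, 4 * u a ^ 2 * (1 - u a) ^ 2 * pd f a u ^ 2 := rfl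
      _ ≤ ∑ a, 4 * B ^ 2 * L (EuclideanSpace.single a 1) ^ 2 :=
        Finset.sum_le_sum fun a _ => hterm a
      _ = 4 * B ^ 2 * ∑ a, L (EuclideanSpace.single a 1) ^ 2 := by rw [Finset.mul_sum]
      _ ≤ 4 * B ^ 2 * ‖L‖ ^ 2 := mul_le_mul_of_nonneg_left (sum_sq_le L) (by positivity)
  rw [hvol, hf2, hf1] at hP
  have hA1 : 0 ≤ (m ^ n)⁻¹ * A (fun _ => 1) := by
    rw [← hvol]; exact ENNReal.toReal_nonneg
  have hP2 := hP.trans (mul_le_mul_of_nonneg_left hgrad hA1)
  have hi : 0 < ((m ^ n)⁻¹) ^ 2 := by positivity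
  have h5 : ((m ^ n)⁻¹) ^ 2 * (A (fun _ => 1) * A (fun x => g x ^ 2) - A g ^ 2) ≤
      ((m ^ n)⁻¹) ^ 2 * (4 * B ^ 2 * (A (fun _ => 1) * A fun x => ‖fderiv ℝ g x‖ ^ 2)) := by
    calc _ = (m ^ n)⁻¹ * A (fun _ => 1) * ((m ^ n)⁻¹ * A fun x => g x ^ 2) -
        ((m ^ n)⁻¹ * A g) ^ 2 := by ring
      _ ≤ _ := hP2
      _ = _ := by ring
  exact le_of_mul_le_mul_left h5 hi

theorem tru (h : S_POH) : S_TRU := by
  intro n R k T B hpos hcont hT hB hb g hg
  have hc := tru_core h R k T B hpos hcont hT hB hb g hg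
  set A : (Eu (Fin n) → ℝ) → ℝ := fun v =>
      ∫ x in KK R T, v (WithLp.toLp 2 x) * ∏ i, k (x i) with hA
  have hE : ∀ v, EW (wR R (trc T k)) v = A v / A (fun _ => 1) := by
    intro v
    unfold EW
    have h1 : ∫ x, wR R (trc T k) x = A (fun _ => 1) := by
      have := integral_wR R k T (fun _ => 1)
      simp only [one_mul] at this
      rw [this, hA]
      simp only [one_mul]
    rw [h1, integral_wR]
  have hA1 : 0 ≤ A (fun _ => 1) := by
    rw [hA]
    refine setIntegral_nonneg (KK_closed R T).measurableSet fun x _ => ?_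
    simp only [one_mul]
    exact Finset.prod_nonneg fun i _ => (hpos _).le
  unfold VW
  rw [hE, hE, hE]
  rcases hA1.eq_or_lt with h0 | h0
  · rw [← h0]; simp
  · have h2 : (A (fun _ => 1) * A (fun x => g x ^ 2) - A g ^ 2) / A (fun _ => 1) ^ 2 ≤
        (4 * B ^ 2 * (A (fun _ => 1) * A fun x => ‖fderiv ℝ g x‖ ^ 2)) / A (fun _ => 1) ^ 2 :=
      div_le_div_of_nonneg_right hc (by positivity)
    have hne := h0.ne'
    calc A (fun x => g x ^ 2) / A (fun _ => 1) - (A g / A (fun _ => 1)) ^ 2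
        = (A (fun _ => 1) * A (fun x => g x ^ 2) - A g ^ 2) / A (fun _ => 1) ^ 2 := by
          field_simp
      _ ≤ _ := h2
      _ = 4 * B ^ 2 * ((A fun x => ‖fderiv ℝ g x‖ ^ 2) / A (fun _ => 1)) := by
          field_simp

/-- in the form of the subtask -/
theorem tru' (h : S_POH) (_ : S_TR) : S_TRU := tru h

end Pool.Agent.R294.OP3
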